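import Pool.Agent.X63.WUMain

/-!
A total weak unit interval graph with `8` vertices and `14` edges.
-/

set_option autoImplicit false

namespace Pool.Agent.Results.MP_f51a03_co.DenseTotalGraph

/-- An edge-labelling of `G` is a map `ℓ` from the edge set to `Bool`, where `true` means near and
`false` means far. The map `I : V → ℝ` is a weak unit interval representation of `G` with respect
to `ℓ` and the number `t > 0` if for every edge `uv` we have `|I u - I v| ≤ t` exactly when `uv`
is near. -/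
def IsWeakUnitRep {V : Type} (G : SimpleGraph V) (ℓ : G.edgeSet → Bool) (I : V → ℝ) (t : ℝ) :
    Prop :=
  0 < t ∧ ∀ (u v : V) (h : G.Adj u v), |I u - I v| ≤ t ↔ ℓ ⟨s(u, v), h⟩ = true

/-- `G` is a total weak unit interval graph: every edge-labelling has a representation. -/
def TotalWeakUnit {V : Type} (G : SimpleGraph V) : Prop :=
  ∀ ℓ : G.edgeSet → Bool, ∃ (I : V → ℝ) (t : ℝ), IsWeakUnitRep G ℓ I t

open Pool.Agent.X63.WU

/-- the edges as pairs of vertices -/
def E : Fin 14 → Fin 8 × Fin 8 :=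
  ![(0, 3), (0, 5), (0, 7), (1, 2), (1, 4), (1, 7), (2, 5), (2, 6), (3, 4),
  (3, 6), (4, 6), (4, 7), (5, 6), (5, 7)]

/-- the graph -/
def G0 : SimpleGraph (Fin 8) where
  Adj u v := ∃ k, E k = (u, v) ∨ E k = (v, u)
  symm := ⟨fun _ _ ⟨k, h⟩ => ⟨k, h.symm⟩⟩
  loopless := ⟨fun u ⟨k, h⟩ => by
    have : ∀ k, (E k).1 ≠ (E k).2 := by decide
    rcases h with h | h
    · exact this k (by rw [h])
    · exact this k (by rw [h])⟩

theorem el_E (k : Fin 14) : el.getD k.val (0, 0) = ((E k).1.val, (E k).2.val) := by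
  revert k; decide

theorem E_adj (k : Fin 14) : G0.Adj (E k).1 (E k).2 := ⟨k, Or.inl rfl⟩

theorem E_inj : ∀ j k : Fin 14, s((E j).1, (E j).2) = s((E k).1, (E k).2) → j = k := by
  decide

theorem near_iff (a b : ℕ) : nearB a b = true ↔ |(a : ℝ) - (b : ℝ)| ≤ 2 := by
  unfold nearB
  rw [Bool.and_eq_true, Nat.ble_eq, Nat.ble_eq, abs_le]
  constructor
  · rintro ⟨h1, h2⟩
    have h1' : (a : ℝ) ≤ b + 2 := by exact_mod_cast h1
    have h2' : (b : ℝ) ≤ a + 2 := by exact_mod_cast h2
    constructor <;> linarith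
  · rintro ⟨h1, h2⟩
    constructor
    · have : (a : ℝ) ≤ b + 2 := by linarith
      exact_mod_cast this
    · have : (b : ℝ) ≤ a + 2 := by linarith
      exact_mod_cast this

theorem total_G0 : TotalWeakUnit G0 := by
  intro ℓ
  let f : Fin 14 → Bool := fun k => ℓ ⟨s((E k).1, (E k).2), E_adj k⟩
  obtain ⟨w, hw⟩ := exists_word (Nat.ofBits f) (Nat.ofBits_lt_two_pow f)
  have key : ∀ k : Fin 14, (|(dig w (E k).1.val : ℝ) - (dig w (E k).2.val : ℝ)| ≤ 2 ↔ f k = true) := by
    intro k
    unfold chk at hw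
    rw [List.all_eq_true] at hw
    have h := hw k.val (List.mem_range.mpr k.isLt)
    rw [el_E, beq_iff_eq, Nat.testBit_ofBits_lt f k.val k.isLt] at h
    rw [← near_iff]
    simp only at h
    rw [h]
  refine ⟨fun v => (dig w v.val : ℝ), 2, by norm_num, ?_⟩
  rintro u v ⟨k, hk⟩
  rcases hk with hk | hk
  · have h := key k
    have e : f k = ℓ ⟨s(u, v), ⟨k, Or.inl hk⟩⟩ := by
      simp only [f]
      congr 2
      rw [hk]
    rw [hk, e] at h
    exact h
  · have h := key k
    have e : f k = ℓ ⟨s(u, v), ⟨k, Or.inr hk⟩⟩ := by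
      simp only [f]
      congr 2
      rw [hk]
      exact Sym2.eq_swap
    rw [hk, e, abs_sub_comm] at h
    exact h

theorem card_G0 : G0.edgeSet.ncard = 14 := by
  have h : G0.edgeSet = (fun k : Fin 14 => s((E k).1, (E k).2)) '' Set.univ := by
    ext e
    induction e using Sym2.ind with
    | _ u v =>
      rw [SimpleGraph.mem_edgeSet]
      constructor
      · rintro ⟨k, hk | hk⟩
        · exact ⟨k, trivial, by simp only [hk]⟩
        · exact ⟨k, trivial, by simp only [hk]; exact Sym2.eq_swap⟩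
      · rintro ⟨k, _, hk⟩
        simp only [Sym2.eq_iff] at hk
        rcases hk with hk | hk
        · exact ⟨k, Or.inl (Prod.ext hk.1 hk.2)⟩
        · exact ⟨k, Or.inr (Prod.ext hk.1 hk.2)⟩
  rw [h, Set.ncard_image_of_injective _ (fun j k hjk => E_inj j k hjk), Set.ncard_univ]
  simp

/-- Some total weak unit interval graph on `8` vertices has `14 = 2 · 8 - 2` edges, so it violates
`|E| ≤ 2|V| - 3`. -/
theorem result : ∃ G : SimpleGraph (Fin 8), TotalWeakUnit G ∧ G.edgeSet.ncard = 14 :=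
  ⟨G0, total_G0, card_G0⟩

end Pool.Agent.Results.MP_f51a03_co.DenseTotalGraph
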